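import Pool.Agent.V11238.MG.FP

/-!
# Finitely presented groups with finitely many conjugacy classes: reduction to simple groups
-/

set_option autoImplicit false

open Subgroup

namespace Pool.Agent.H398.Mon

universe u v

section Classes

variable {G : Type u} [Group G]

/-- normal subgroups are determined by the conjugacy classes they contain -/
theorem mem_iff_of_classes (N : Subgroup G) [hN : N.Normal] (x : G) :
    x ∈ N ↔ ConjClasses.mk x ∈ {c : ConjClasses G | ∃ y ∈ N, ConjClasses.mk y = c} := by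
  constructor
  · intro h
    exact ⟨x, h, rfl⟩
  · rintro ⟨y, hy, h⟩
    obtain ⟨t, ht⟩ := isConj_iff.1 (ConjClasses.mk_eq_mk_iff_isConj.1 h)
    rw [← ht]
    exact hN.conj_mem _ hy _

theorem finite_normal [Finite (ConjClasses G)] : Finite {N : Subgroup G // N.Normal} := by
  classical
  refine Finite.of_injective
    (fun N : {N : Subgroup G // N.Normal} => {c : ConjClasses G | ∃ y ∈ N.1, ConjClasses.mk y = c}) ?_
  rintro ⟨N, hN⟩ ⟨M, hM⟩ h
  apply Subtype.ext
  apply Subgroup.ext
  intro x
  have h' : {c : ConjClasses G | ∃ y ∈ N, ConjClasses.mk y = c} =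
    {c : ConjClasses G | ∃ y ∈ M, ConjClasses.mk y = c} := h
  rw [mem_iff_of_classes N x, mem_iff_of_classes M x, h']

theorem fng [Finite (ConjClasses G)] (N : Subgroup G) [hN : N.Normal] :
    N.IsFinitelyNormallyGenerated := by
  classical
  let I := {c : ConjClasses G // ∃ y ∈ N, ConjClasses.mk y = c}
  let s : I → G := fun c => c.2.choose
  have hs : ∀ c : I, s c ∈ N ∧ ConjClasses.mk (s c) = c.1 := fun c => c.2.choose_spec
  refine ⟨Set.range s, Set.finite_range s, ?_⟩
  apply le_antisymm
  · apply normalClosure_le_normal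
    rintro _ ⟨c, rfl⟩
    exact (hs c).1
  · intro x hx
    have h1 := (hs ⟨ConjClasses.mk x, x, hx, rfl⟩).2
    obtain ⟨t, ht⟩ := isConj_iff.1 (ConjClasses.mk_eq_mk_iff_isConj.1 h1)
    rw [← ht]
    exact normalClosure_normal.conj_mem _
      (subset_normalClosure (Set.mem_range_self (f := s) ⟨ConjClasses.mk x, x, hx, rfl⟩)) _

theorem classes_quotient [Finite (ConjClasses G)] (N : Subgroup G) [N.Normal] :
    Finite (ConjClasses (G ⧸ N)) :=
  Finite.of_surjective (ConjClasses.map (QuotientGroup.mk' N))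
    (ConjClasses.map_surjective (QuotientGroup.mk'_surjective N))

theorem classes_finiteIndex [Finite (ConjClasses G)] (K : Subgroup G) [hK : K.FiniteIndex] :
    Finite (ConjClasses K) := by
  classical
  have hfin : Finite (G ⧸ K) := inferInstance
  let f : ConjClasses G × (G ⧸ K) → ConjClasses K := fun p =>
    if h : (p.2.out)⁻¹ * p.1.out * p.2.out ∈ K then
      ConjClasses.mk ⟨(p.2.out)⁻¹ * p.1.out * p.2.out, h⟩ else ConjClasses.mk 1
  refine Finite.of_surjective f ?_
  intro c
  obtain ⟨⟨k, hk⟩, rfl⟩ := ConjClasses.mk_surjective c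
  have h1 : ConjClasses.mk (ConjClasses.mk k).out = ConjClasses.mk k := Quotient.out_eq _
  obtain ⟨h, hh⟩ := isConj_iff.1 (ConjClasses.mk_eq_mk_iff_isConj.1 h1)
  set x := (ConjClasses.mk k).out with hx
  let q : G ⧸ K := (h⁻¹ : G)
  have hq : (q.out)⁻¹ * h⁻¹ ∈ K := by
    rw [← QuotientGroup.eq]; exact QuotientGroup.out_eq' q
  have hk2 : h * q.out ∈ K := by
    have := K.inv_mem hq
    simpa using this
  have key : (q.out)⁻¹ * x * q.out = (h * q.out)⁻¹ * k * (h * q.out) := by
    rw [← hh]; group
  have hmem : (q.out)⁻¹ * x * q.out ∈ K := by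
    rw [key]
    exact K.mul_mem (K.mul_mem (K.inv_mem hk2) hk) hk2
  refine ⟨(ConjClasses.mk k, q), ?_⟩
  have h2 : f (ConjClasses.mk k, q) = ConjClasses.mk ⟨(q.out)⁻¹ * x * q.out, hmem⟩ := by
    show (if h : (q.out)⁻¹ * x * q.out ∈ K then
      ConjClasses.mk (⟨(q.out)⁻¹ * x * q.out, h⟩ : K) else ConjClasses.mk 1) = _
    rw [dif_pos hmem]
  rw [h2, ConjClasses.mk_eq_mk_iff_isConj, isConj_iff]
  refine ⟨⟨h * q.out, hk2⟩, Subtype.ext ?_⟩
  show h * q.out * ((q.out)⁻¹ * x * q.out) * (h * q.out)⁻¹ = k
  rw [key]; group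

end Classes

section Reduction

variable {G : Type u} [Group G]

/-- A group with finitely many normal subgroups has a normal subgroup of finite index without
proper subgroups of finite index. -/
theorem exists_residual [hfin : Finite {N : Subgroup G // N.Normal}] :
    ∃ L : Subgroup G, L.Normal ∧ L.FiniteIndex ∧ ∀ H : Subgroup L, H.FiniteIndex → H = ⊤ := by
  classical
  let I := {N : {N : Subgroup G // N.Normal} // N.1.FiniteIndex}
  have hI : Finite I := inferInstance
  let L : Subgroup G := ⨅ i : I, i.1.1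
  have hLn : L.Normal := Subgroup.normal_iInf_normal fun i : I => i.1.2
  have hLf : L.FiniteIndex := Subgroup.finiteIndex_iInf fun i : I => i.2
  refine ⟨L, hLn, hLf, ?_⟩
  intro H hH
  have h1 : (H.map L.subtype).FiniteIndex := by
    refine ⟨?_⟩
    have h2 := Subgroup.index_map_subtype (H := L) H
    rw [h2]
    exact mul_ne_zero hH.index_ne_zero hLf.index_ne_zero
  have h2 : (H.map L.subtype).normalCore.FiniteIndex := inferInstance
  have h3 : L ≤ (H.map L.subtype).normalCore :=
    iInf_le (fun i : I => i.1.1) ⟨⟨(H.map L.subtype).normalCore, inferInstance⟩, h2⟩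
  rw [eq_top_iff]
  rintro ⟨x, hx⟩ -
  obtain ⟨y, hy, hyx⟩ := (H.map L.subtype).normalCore_le (h3 hx)
  have : y = ⟨x, hx⟩ := Subtype.ext hyx
  rwa [this] at hy

/-- A nontrivial group with finitely many normal subgroups has a simple quotient. -/
theorem exists_simple [hfin : Finite {N : Subgroup G // N.Normal}] [Nontrivial G] :
    ∃ (K : Subgroup G) (_ : K.Normal), K ≠ ⊤ ∧ IsSimpleGroup (G ⧸ K) := by
  classical
  let P : Set {N : Subgroup G // N.Normal} := {N | N.1 ≠ ⊤}
  have hP : P.Finite := Set.toFinite P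
  have hne : P.Nonempty := ⟨⟨⊥, inferInstance⟩, bot_ne_top⟩
  obtain ⟨⟨K, hK⟩, hmax⟩ := hP.exists_maximal hne
  have hKt : K ≠ ⊤ := hmax.prop
  refine ⟨K, hK, hKt, ?_⟩
  have hnt : Nontrivial (G ⧸ K) := by
    by_contra h
    rw [not_nontrivial_iff_subsingleton, QuotientGroup.subsingleton_iff] at h
    exact hKt h
  refine { exists_pair_ne := hnt.exists_pair_ne, eq_bot_or_eq_top_of_normal := ?_ }
  intro M hM
  by_cases h : M.comap (QuotientGroup.mk' K) = ⊤
  · right
    rw [eq_top_iff]
    intro q _
    obtain ⟨g, rfl⟩ := QuotientGroup.mk'_surjective K q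
    have : g ∈ M.comap (QuotientGroup.mk' K) := by rw [h]; trivial
    exact this
  · left
    have h1 : (⟨M.comap (QuotientGroup.mk' K), inferInstance⟩ : {N : Subgroup G // N.Normal}) ≤
        ⟨K, hK⟩ := by
      apply hmax.le_of_ge (y := ⟨M.comap (QuotientGroup.mk' K), inferInstance⟩)
      · exact h
      · intro x hx
        show QuotientGroup.mk' K x ∈ M
        have : QuotientGroup.mk' K x = 1 := (QuotientGroup.eq_one_iff x).2 hx
        rw [this]
        exact M.one_mem
    rw [eq_bot_iff]
    intro q hq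
    obtain ⟨g, rfl⟩ := QuotientGroup.mk'_surjective K q
    have h2 : g ∈ K := h1 (show g ∈ M.comap (QuotientGroup.mk' K) from hq)
    rw [Subgroup.mem_bot]
    exact (QuotientGroup.eq_one_iff g).2 h2

theorem reduction [Infinite G] [hfp : Group.IsFinitelyPresented G] [hc : Finite (ConjClasses G)] :
    ∃ (L : Subgroup G) (K : Subgroup L) (_ : K.Normal), L.Normal ∧ L.FiniteIndex ∧
      (∀ H : Subgroup L, H.FiniteIndex → H = ⊤) ∧
      IsSimpleGroup (L ⧸ K) ∧ Group.IsFinitelyPresented (L ⧸ K) ∧ Infinite (L ⧸ K) ∧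
      Finite (ConjClasses (L ⧸ K)) := by
  have := finite_normal (G := G)
  obtain ⟨L, hLn, hLf, hno⟩ := exists_residual (G := G)
  have hcL : Finite (ConjClasses L) := classes_finiteIndex L
  have hfpL : Group.IsFinitelyPresented L := Pool.Agent.V11238.MG.fp_of_finiteIndex L
  have hinfL : Infinite L := by
    by_contra h
    rw [not_infinite_iff_finite] at h
    have h1 : Finite (G ⧸ L) := inferInstance
    have : Finite G := by
      have h2 := Subgroup.groupEquivQuotientProdSubgroup (s := L)
      exact Finite.of_equiv _ h2.symm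
    exact not_finite G
  have hnL := finite_normal (G := L)
  have : Nontrivial L := inferInstance
  obtain ⟨K, hK, hKt, hs⟩ := exists_simple (G := L)
  refine ⟨L, K, hK, hLn, hLf, hno, hs, ?_, ?_, classes_quotient K⟩
  · exact Group.IsFinitelyPresented.quotient K (fng K)
  · by_contra h
    rw [not_infinite_iff_finite] at h
    exact hKt (hno K Subgroup.finiteIndex_of_finite_quotient)

end Reduction

end Pool.Agent.H398.Mon
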