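import Pool.Agent.H398.Mon.Rat

/-!
# Exponential growth from a recurrent element
-/

set_option autoImplicit false

open scoped Pointwise

namespace Pool.Agent.H398.Mon

universe u

variable {G : Type u} [Group G]

/-- the generators, their inverses and `1` -/
def UU (T : Finset G) : Set G := (T : Set G) ∪ (T : Set G)⁻¹ ∪ {1}

theorem one_mem_UU (T : Finset G) : (1 : G) ∈ UU T := Or.inr rfl

theorem UU_finite (T : Finset G) : (UU T).Finite :=
  (T.finite_toSet.union T.finite_toSet.inv).union (Set.finite_singleton 1)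

theorem pow_finite (T : Finset G) (n : ℕ) : ((UU T) ^ n).Finite := by
  induction n with
  | zero => rw [pow_zero]; exact Set.finite_singleton 1
  | succ n ih => rw [pow_succ]; exact ih.mul (UU_finite T)

theorem UU_mono (T : Finset G) {m n : ℕ} (h : m ≤ n) : (UU T) ^ m ⊆ (UU T) ^ n :=
  Set.pow_subset_pow_right (one_mem_UU T) h

theorem UU_inv (T : Finset G) : (UU T)⁻¹ = UU T := by
  unfold UU
  rw [Set.union_inv, Set.union_inv, inv_inv, Set.inv_singleton, inv_one,
    Set.union_comm (T : Set G)⁻¹]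

theorem mul_mem_UU (T : Finset G) {m n : ℕ} {a b : G} (ha : a ∈ (UU T) ^ m)
    (hb : b ∈ (UU T) ^ n) : a * b ∈ (UU T) ^ (m + n) := by
  rw [pow_add]
  exact Set.mul_mem_mul ha hb

theorem exists_mem_pow (T : Finset G) (hT : Subgroup.closure (T : Set G) = ⊤) (g : G) :
    ∃ n : ℕ, g ∈ (UU T) ^ n := by
  have hg : g ∈ Subgroup.closure (T : Set G) := by rw [hT]; trivial
  induction hg using Subgroup.closure_induction with
  | mem x hx => exact ⟨1, by rw [pow_one]; exact Or.inl (Or.inl hx)⟩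
  | one => exact ⟨0, by rw [pow_zero]; rfl⟩
  | mul a b _ _ ha hb =>
    obtain ⟨m, hm⟩ := ha
    obtain ⟨n, hn⟩ := hb
    exact ⟨m + n, mul_mem_UU T hm hn⟩
  | inv a _ ha =>
    obtain ⟨m, hm⟩ := ha
    refine ⟨m, ?_⟩
    have h1 : (a⁻¹ : G) ∈ ((UU T) ^ m)⁻¹ := Set.inv_mem_inv.2 hm
    rwa [← inv_pow, UU_inv] at h1

theorem pow_mem_ball (T : Finset G) {x t : G} {N D : ℕ} (hN : 2 ≤ N)
    (ht : t * x * t⁻¹ = x ^ N) (h1 : ∀ s < N, x ^ s ∈ (UU T) ^ D) (h2 : t ∈ (UU T) ^ D)
    (h3 : t⁻¹ ∈ (UU T) ^ D) (n : ℕ) :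
    ∀ m < N ^ n, x ^ m ∈ (UU T) ^ (D * (3 * n + 1)) := by
  induction n with
  | zero =>
    intro m hm
    have : m < N := lt_of_lt_of_le hm (by rw [pow_zero]; omega)
    have h := h1 m this
    simpa using h
  | succ n ih =>
    intro m hm
    have hNpos : 0 < N := by omega
    have hq : m / N < N ^ n := by
      rw [Nat.div_lt_iff_lt_mul hNpos, ← pow_succ]
      exact hm
    have hs : m % N < N := Nat.mod_lt _ hNpos
    have hx : x ^ m = t * x ^ (m / N) * t⁻¹ * x ^ (m % N) := by
      rw [← conj_pow, ht, ← pow_mul, ← pow_add, Nat.div_add_mod]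
    rw [hx]
    have h4 := mul_mem_UU T (mul_mem_UU T (mul_mem_UU T h2 (ih _ hq)) h3) (h1 _ hs)
    have e : D + D * (3 * n + 1) + D + D = D * (3 * (n + 1) + 1) := by ring
    rwa [e] at h4

theorem exp_growth {x : G} (hx : ¬ IsOfFinOrder x)
    (h : ∀ n : ℕ, 0 < n → ∃ m : ℕ, 0 < m ∧ IsConj x (x ^ (n * m)))
    (T : Finset G) (hT : Subgroup.closure (T : Set G) = ⊤) :
    ∃ c : ℝ, 0 < c ∧ ∀ r : ℕ, Real.exp (c * r) ≤ (((UU T) ^ r).ncard : ℝ) := by
  classical
  obtain ⟨m, hm, hc⟩ := h 2 (by norm_num)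
  obtain ⟨t, ht⟩ := isConj_iff.1 hc
  set N : ℕ := 2 * m with hN
  have hN2 : 2 ≤ N := by omega
  choose len hlen using exists_mem_pow T hT
  let D : ℕ := (∑ s ∈ Finset.range N, len (x ^ s)) + len t + len t⁻¹ + 1
  have hD : 0 < D := Nat.succ_pos _
  have h1 : ∀ s < N, x ^ s ∈ (UU T) ^ D := by
    intro s hs
    apply UU_mono T _ (hlen (x ^ s))
    have : len (x ^ s) ≤ ∑ s ∈ Finset.range N, len (x ^ s) :=
      Finset.single_le_sum (f := fun s => len (x ^ s)) (fun _ _ => Nat.zero_le _)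
        (Finset.mem_range.2 hs)
    show len (x ^ s) ≤ (∑ s ∈ Finset.range N, len (x ^ s)) + len t + len t⁻¹ + 1
    omega
  have h2 : t ∈ (UU T) ^ D := by
    apply UU_mono T _ (hlen t)
    show len t ≤ (∑ s ∈ Finset.range N, len (x ^ s)) + len t + len t⁻¹ + 1
    omega
  have h3 : t⁻¹ ∈ (UU T) ^ D := by
    apply UU_mono T _ (hlen t⁻¹)
    show len t⁻¹ ≤ (∑ s ∈ Finset.range N, len (x ^ s)) + len t + len t⁻¹ + 1
    omega
  have hinj : Function.Injective (fun k : ℕ => x ^ k) :=
    injective_pow_iff_not_isOfFinOrder.2 hx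
  have key : ∀ n : ℕ, 2 ^ n ≤ ((UU T) ^ (D * (3 * n + 1))).ncard := by
    intro n
    have hb := pow_mem_ball T hN2 ht h1 h2 h3 n
    have hsub : ((Finset.range (N ^ n)).image (fun k : ℕ => x ^ k) : Set G) ⊆
        (UU T) ^ (D * (3 * n + 1)) := by
      intro g hg
      rw [Finset.mem_coe, Finset.mem_image] at hg
      obtain ⟨k, hk, rfl⟩ := hg
      exact hb k (Finset.mem_range.1 hk)
    have h4 := Set.ncard_le_ncard hsub (pow_finite T _)
    rw [Set.ncard_coe_finset, Finset.card_image_of_injective _ hinj, Finset.card_range] at h4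
    exact (Nat.pow_le_pow_left hN2 n).trans h4
  have hmono : ∀ {a b : ℕ}, a ≤ b → ((UU T) ^ a).ncard ≤ ((UU T) ^ b).ncard := fun hab =>
    Set.ncard_le_ncard (UU_mono T hab) (pow_finite T _)
  have hone : ∀ r, 1 ≤ ((UU T) ^ r).ncard := by
    intro r
    have h5 := hmono (Nat.zero_le r)
    rw [pow_zero] at h5
    have h6 : ((1 : Set G)).ncard = 1 := Set.ncard_singleton 1
    rw [h6] at h5
    exact h5
  -- a generator different from 1
  obtain ⟨u, hu, hu1⟩ : ∃ u ∈ UU T, u ≠ 1 := by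
    by_contra hcon
    push Not at hcon
    have h7 : Subgroup.closure (T : Set G) ≤ ⊥ := by
      rw [Subgroup.closure_le]
      intro g hg
      exact hcon g (Or.inl (Or.inl hg))
    rw [hT] at h7
    have h8 : x ∈ (⊥ : Subgroup G) := h7 trivial
    rw [Subgroup.mem_bot] at h8
    apply hx
    rw [h8]
    exact IsOfFinOrder.one
  have htwo : ∀ r, 1 ≤ r → 2 ≤ ((UU T) ^ r).ncard := by
    intro r hr
    have h9 : ({1, u} : Set G) ⊆ (UU T) ^ r := by
      intro g hg
      apply UU_mono T hr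
      rw [pow_one]
      rcases hg with rfl | hg
      · exact one_mem_UU T
      · rw [Set.mem_singleton_iff] at hg
        rw [hg]; exact hu
    have h10 := Set.ncard_le_ncard h9 (pow_finite T _)
    rwa [Set.ncard_pair hu1.symm] at h10
  have hDr : (0 : ℝ) < D := Nat.cast_pos.2 hD
  have hlog : 0 < Real.log 2 := Real.log_pos (by norm_num)
  refine ⟨Real.log 2 / (8 * D), by positivity, ?_⟩
  intro r
  rcases Nat.eq_zero_or_pos r with hr0 | hr0
  · subst hr0
    rw [Nat.cast_zero, mul_zero, Real.exp_zero]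
    exact_mod_cast hone 0
  by_cases hr : r < 4 * D
  · have h11 : Real.log 2 / (8 * D) * r ≤ Real.log 2 := by
      have h12 : (r : ℝ) ≤ 4 * D := by exact_mod_cast hr.le
      rw [div_mul_eq_mul_div, div_le_iff₀ (by positivity)]
      nlinarith
    calc Real.exp (Real.log 2 / (8 * D) * r) ≤ Real.exp (Real.log 2) := Real.exp_le_exp.2 h11
      _ = 2 := Real.exp_log (by norm_num)
      _ ≤ _ := by exact_mod_cast htwo r hr0
  · push Not at hr
    set n : ℕ := r / (4 * D) with hn
    have h4D : 0 < 4 * D := by omega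
    have hn1 : 1 ≤ n := (Nat.one_le_div_iff h4D).2 hr
    have hle : n * (4 * D) ≤ r := Nat.div_mul_le_self r (4 * D)
    have hlt : r < (n + 1) * (4 * D) := by
      have := Nat.lt_div_mul_add (a := r) h4D
      rw [← hn] at this
      calc r < n * (4 * D) + 4 * D := this
        _ = (n + 1) * (4 * D) := by ring
    have h13 : D * (3 * n + 1) ≤ r := by
      calc D * (3 * n + 1) ≤ D * (4 * n) := Nat.mul_le_mul_left _ (by omega)
        _ = n * (4 * D) := by ring
        _ ≤ r := hle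
    have h14 : 2 ^ n ≤ ((UU T) ^ r).ncard := (key n).trans (hmono h13)
    have h15 : (r : ℝ) ≤ 8 * D * n := by
      have h16 : r ≤ 8 * D * n := by
        have h17 : (n + 1) * (4 * D) ≤ 8 * D * n := by
          have : (n + 1) ≤ 2 * n := by omega
          calc (n + 1) * (4 * D) ≤ (2 * n) * (4 * D) := Nat.mul_le_mul_right _ this
            _ = 8 * D * n := by ring
        omega
      exact_mod_cast h16
    have h18 : Real.log 2 / (8 * D) * r ≤ n * Real.log 2 := by
      rw [div_mul_eq_mul_div, div_le_iff₀ (by positivity)]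
      nlinarith
    calc Real.exp (Real.log 2 / (8 * D) * r) ≤ Real.exp (n * Real.log 2) :=
          Real.exp_le_exp.2 h18
      _ = 2 ^ n := by rw [Real.exp_nat_mul, Real.exp_log (by norm_num)]
      _ ≤ _ := by exact_mod_cast h14

end Pool.Agent.H398.Mon
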