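import Mathlib

/-!
# Finitely presented groups with finitely many normal subgroups are isolated
-/

set_option autoImplicit false

open Subgroup

namespace Pool.Agent.H398.Mon

universe u v

/-- The kernel of every homomorphism from a free group of finite rank onto a finitely presented
group is the normal closure of a finite set. -/
theorem ker_fng {G : Type u} [Group G] [hG : Group.IsFinitelyPresented G] {m : ℕ}
    (ψ : FreeGroup (Fin m) →* G) (hψ : Function.Surjective ψ) :
    ∃ R : Set (FreeGroup (Fin m)), R.Finite ∧ normalClosure R = ψ.ker := by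
  classical
  obtain ⟨n, φ, hφ, R, hR, hker⟩ := hG.out
  let σ : FreeGroup (Fin n) →* FreeGroup (Fin m) :=
    FreeGroup.lift fun i => Function.surjInv hψ (φ (FreeGroup.of i))
  let τ : FreeGroup (Fin m) →* FreeGroup (Fin n) :=
    FreeGroup.lift fun j => Function.surjInv hφ (ψ (FreeGroup.of j))
  have hσ : ψ.comp σ = φ := by
    ext i
    simp only [σ, MonoidHom.comp_apply, FreeGroup.lift_apply_of]
    exact Function.surjInv_eq hψ _
  have hτ : φ.comp τ = ψ := by
    ext j
    simp only [τ, MonoidHom.comp_apply, FreeGroup.lift_apply_of]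
    exact Function.surjInv_eq hφ _
  let R' : Set (FreeGroup (Fin m)) :=
    σ '' R ∪ Set.range fun j : Fin m => (FreeGroup.of j)⁻¹ * σ (τ (FreeGroup.of j))
  refine ⟨R', (hR.image _).union (Set.finite_range _), ?_⟩
  apply le_antisymm
  · apply normalClosure_le_normal
    rintro _ (⟨x, hx, rfl⟩ | ⟨j, rfl⟩)
    · show ψ (σ x) = 1
      have h1 : x ∈ φ.ker := by rw [← hker]; exact subset_normalClosure hx
      rw [← MonoidHom.comp_apply, hσ]
      exact h1
    · show ψ ((FreeGroup.of j)⁻¹ * σ (τ (FreeGroup.of j))) = 1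
      rw [map_mul, map_inv, ← MonoidHom.comp_apply, hσ, ← MonoidHom.comp_apply, hτ, inv_mul_cancel]
  · intro w hw
    have h1 : τ w ∈ normalClosure R := by
      rw [hker]
      show φ (τ w) = 1
      rw [← MonoidHom.comp_apply, hτ]
      exact hw
    have h2 : normalClosure R ≤ (normalClosure R').comap σ := by
      apply normalClosure_le_normal
      intro x hx
      exact subset_normalClosure (Or.inl ⟨x, hx, rfl⟩)
    have h3 : σ (τ w) ∈ normalClosure R' := h2 h1
    have h4 : (QuotientGroup.mk' (normalClosure R')).comp (σ.comp τ) =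
        QuotientGroup.mk' (normalClosure R') := by
      ext j
      show QuotientGroup.mk' (normalClosure R') (σ (τ (FreeGroup.of j))) =
        QuotientGroup.mk' (normalClosure R') (FreeGroup.of j)
      symm
      exact (QuotientGroup.eq).2 (subset_normalClosure (Or.inr ⟨j, rfl⟩))
    have h5 : QuotientGroup.mk' (normalClosure R') (σ (τ w)) =
        QuotientGroup.mk' (normalClosure R') w := DFunLike.congr_fun h4 w
    have h6 : QuotientGroup.mk' (normalClosure R') (σ (τ w)) = 1 :=
      (QuotientGroup.eq_one_iff _).2 h3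
    rw [h6] at h5
    exact (QuotientGroup.eq_one_iff _).1 h5.symm

theorem lift_surj {H : Type v} [Group H] {n : ℕ} (t : Fin n → H)
    (ht : closure (Set.range t) = ⊤) : Function.Surjective (FreeGroup.lift t) := by
  rw [← MonoidHom.range_eq_top, FreeGroup.range_lift_eq_closure, ht]

/-- A finitely presented group with finitely many normal subgroups is isolated in the space of
marked groups. -/
theorem isolated {G : Type u} [Group G] [hG : Group.IsFinitelyPresented G]
    [hfin : Finite {N : Subgroup G // N.Normal}] (n : ℕ) (s : Fin n → G)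
    (hs : closure (Set.range s) = ⊤) :
    ∃ r : ℕ, ∀ (H : Type v) [Group H] (t : Fin n → H), closure (Set.range t) = ⊤ →
      (∀ w : FreeGroup (Fin n), w.norm ≤ r → (FreeGroup.lift s w = 1 ↔ FreeGroup.lift t w = 1)) →
      ∃ e : G ≃* H, ∀ i, e (s i) = t i := by
  classical
  have hsurj := lift_surj s hs
  obtain ⟨R, hR, hker⟩ := ker_fng (FreeGroup.lift s) hsurj
  -- words for nontrivial elements of the normal subgroups
  let I := {N : {N : Subgroup G // N.Normal} // N.1 ≠ ⊥}
  have hI : Finite I := inferInstance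
  have hex : ∀ N : I, ∃ w : FreeGroup (Fin n), FreeGroup.lift s w ∈ N.1.1 ∧
      FreeGroup.lift s w ≠ 1 := by
    intro N
    obtain ⟨⟨x, hx⟩, hx1⟩ := (N.1.1.ne_bot_iff_exists_ne_one).1 N.2
    have hx1' : x ≠ 1 := fun h => hx1 (Subtype.ext h)
    obtain ⟨w, hw⟩ := hsurj x
    exact ⟨w, by rw [hw]; exact hx, by rw [hw]; exact hx1'⟩
  choose W hW1 hW2 using hex
  have hfinS : (R ∪ Set.range W).Finite := hR.union (Set.finite_range W)
  obtain ⟨r, hr⟩ : ∃ r : ℕ, ∀ w ∈ R ∪ Set.range W, w.norm ≤ r := by
    obtain ⟨r, hr⟩ := (hfinS.image FreeGroup.norm).bddAbove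
    exact ⟨r, fun w hw => hr ⟨w, hw, rfl⟩⟩
  refine ⟨r, ?_⟩
  intro H _ t ht hrt
  have htsurj := lift_surj t ht
  have hle : (FreeGroup.lift s).ker ≤ (FreeGroup.lift t).ker := by
    rw [← hker]
    apply normalClosure_le_normal
    intro w hw
    have h1 : FreeGroup.lift s w = 1 := by
      have : w ∈ (FreeGroup.lift s).ker := by rw [← hker]; exact subset_normalClosure hw
      exact this
    exact (hrt w (hr w (Or.inl hw))).1 h1
  have hge : (FreeGroup.lift t).ker ≤ (FreeGroup.lift s).ker := by
    intro w hw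
    by_contra hcon
    have hNn : ((FreeGroup.lift t).ker.map (FreeGroup.lift s)).Normal :=
      Subgroup.Normal.map inferInstance _ hsurj
    have hNb : (FreeGroup.lift t).ker.map (FreeGroup.lift s) ≠ ⊥ := by
      intro hb
      apply hcon
      have : FreeGroup.lift s w ∈ (FreeGroup.lift t).ker.map (FreeGroup.lift s) := ⟨w, hw, rfl⟩
      rw [hb, Subgroup.mem_bot] at this
      exact this
    let N : I := ⟨⟨_, hNn⟩, hNb⟩
    obtain ⟨w', hw', hww⟩ := hW1 N
    have h1 : w'⁻¹ * W N ∈ (FreeGroup.lift t).ker := by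
      apply hle
      show FreeGroup.lift s (w'⁻¹ * W N) = 1
      rw [map_mul, map_inv, hww, inv_mul_cancel]
    have h2 : W N ∈ (FreeGroup.lift t).ker := by
      have := (FreeGroup.lift t).ker.mul_mem hw' h1
      rwa [mul_inv_cancel_left] at this
    exact hW2 N ((hrt (W N) (hr _ (Or.inr ⟨N, rfl⟩))).2 h2)
  have hkk : (FreeGroup.lift s).ker = (FreeGroup.lift t).ker := le_antisymm hle hge
  let e1 := QuotientGroup.quotientKerEquivOfSurjective (FreeGroup.lift s) hsurj
  let e2 := QuotientGroup.quotientKerEquivOfSurjective (FreeGroup.lift t) htsurj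
  let e0 := QuotientGroup.quotientMulEquivOfEq hkk
  refine ⟨(e1.symm.trans e0).trans e2, ?_⟩
  intro i
  have h1 : e1.symm (s i) = QuotientGroup.mk (FreeGroup.of i) := by
    rw [MulEquiv.symm_apply_eq]
    show s i = FreeGroup.lift s (FreeGroup.of i)
    rw [FreeGroup.lift_apply_of]
  show e2 (e0 (e1.symm (s i))) = t i
  rw [h1]
  show FreeGroup.lift t (FreeGroup.of i) = t i
  rw [FreeGroup.lift_apply_of]

end Pool.Agent.H398.Mon
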