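import Mathlib

/-!
# Groups with finitely many conjugacy classes: finite exponent, or a copy of the rationals and
exponential growth
-/

set_option autoImplicit false

open scoped Pointwise

namespace Pool.Agent.H398.Mon

universe u

variable {G : Type u} [Group G]

/-- with finitely many classes a torsion group has finite exponent -/
theorem exponent_of_torsion [hc : Finite (ConjClasses G)] (h : ∀ g : G, IsOfFinOrder g) :
    ∃ n : ℕ, 0 < n ∧ ∀ g : G, g ^ n = 1 := by
  classical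
  have := Fintype.ofFinite (ConjClasses G)
  refine ⟨∏ c : ConjClasses G, orderOf c.out, ?_, ?_⟩
  · apply Finset.prod_pos
    intro c _
    exact (h c.out).orderOf_pos
  · intro g
    have h1 : ConjClasses.mk (ConjClasses.mk g).out = ConjClasses.mk g := Quotient.out_eq _
    obtain ⟨t, ht⟩ := isConj_iff.1 (ConjClasses.mk_eq_mk_iff_isConj.1 h1)
    have h2 : orderOf (ConjClasses.mk g).out ∣ ∏ c : ConjClasses G, orderOf c.out :=
      Finset.dvd_prod_of_mem _ (Finset.mem_univ _)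
    obtain ⟨k, hk⟩ := h2
    rw [← ht, conj_pow, hk, pow_mul, pow_orderOf_eq_one, one_pow, mul_one, mul_inv_cancel]

/-- with finitely many classes some element of infinite order is conjugate to powers of itself with
exponents divisible by any given number -/
theorem exists_recurrent [hc : Finite (ConjClasses G)] (h : ¬ ∀ g : G, IsOfFinOrder g) :
    ∃ x : G, ¬ IsOfFinOrder x ∧ ∀ n : ℕ, 0 < n → ∃ m : ℕ, 0 < m ∧ IsConj x (x ^ (n * m)) := by
  classical
  push Not at h
  obtain ⟨g, hg⟩ := h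
  obtain ⟨c, hcinf⟩ := Finite.exists_infinite_fiber
    (fun k : ℕ => ConjClasses.mk (g ^ k.factorial))
  have hI : (((fun k : ℕ => ConjClasses.mk (g ^ k.factorial)) ⁻¹' {c}) : Set ℕ).Infinite :=
    Set.infinite_coe_iff.1 hcinf
  obtain ⟨k0, hk0⟩ := hI.nonempty
  refine ⟨g ^ k0.factorial, ?_, ?_⟩
  · intro hf
    exact hg ((isOfFinOrder_pow.1 hf).resolve_right (Nat.factorial_ne_zero k0))
  · intro n hn
    obtain ⟨k, hk, hlt⟩ := hI.exists_gt (n * k0.factorial)
    have hdvd : n * k0.factorial ∣ k.factorial :=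
      Nat.dvd_factorial (Nat.mul_pos hn (Nat.factorial_pos k0)) hlt.le
    obtain ⟨m, hm⟩ := hdvd
    have hmpos : 0 < m := by
      rcases Nat.eq_zero_or_pos m with h0 | h0
      · rw [h0, mul_zero] at hm
        exact absurd hm (Nat.factorial_ne_zero k)
      · exact h0
    refine ⟨m, hmpos, ?_⟩
    have h1 : ConjClasses.mk (g ^ k0.factorial) = c := hk0
    have h2 : ConjClasses.mk (g ^ k.factorial) = c := hk
    have h3 : (g ^ k0.factorial) ^ (n * m) = g ^ k.factorial := by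
      rw [← pow_mul, hm]
      congr 1
      ring
    rw [h3]
    exact ConjClasses.mk_eq_mk_iff_isConj.1 (h1.trans h2.symm)

section Rational

variable {x : G} (hx : ¬ IsOfFinOrder x)
  (h : ∀ n : ℕ, 0 < n → ∃ m : ℕ, 0 < m ∧ IsConj x (x ^ (n * m)))

/-- conjugates of positive powers of `x` -/
def Rt (x y : G) : Prop := ∃ (m : ℕ) (t : G), 0 < m ∧ y = t * x ^ m * t⁻¹

include h in
theorem root_x (n : ℕ) (hn : 0 < n) : ∃ z : G, Rt x z ∧ z ^ n = x := by
  obtain ⟨m, hm, hc⟩ := h n hn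
  obtain ⟨t, ht⟩ := isConj_iff.1 hc
  refine ⟨t⁻¹ * x ^ m * t, ⟨m, t⁻¹, hm, by rw [inv_inv]⟩, ?_⟩
  have h1 : (t⁻¹ * x ^ m * t) ^ n = t⁻¹ * (x ^ (n * m)) * t := by
    have := conj_pow (i := n) (a := t⁻¹) (b := x ^ m)
    rw [inv_inv] at this
    rw [this, ← pow_mul, mul_comm m n]
  rw [h1, ← ht]
  group

include h in
theorem root_Rt (n : ℕ) (hn : 0 < n) (y : G) (hy : Rt x y) : ∃ z : G, Rt x z ∧ z ^ n = y := by
  obtain ⟨m, t, hm, rfl⟩ := hy
  obtain ⟨z, ⟨j, s, hj, hz⟩, hzn⟩ := root_x h n hn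
  refine ⟨t * z ^ m * t⁻¹, ⟨j * m, t * s, Nat.mul_pos hj hm, ?_⟩, ?_⟩
  · rw [hz, conj_pow, ← pow_mul]
    group
  · rw [conj_pow, ← pow_mul, mul_comm m n, pow_mul, hzn]

include h in
theorem exists_chain : ∃ y : ℕ → G, y 0 = x ∧ ∀ k, (y (k + 1)) ^ (k + 1) = y k := by
  classical
  have hR : ∀ (k : ℕ) (y : {y : G // Rt x y}), ∃ z : {y : G // Rt x y},
      (z.1) ^ (k + 1) = y.1 := by
    intro k y
    obtain ⟨z, hz, hzy⟩ := root_Rt h (k + 1) (Nat.succ_pos k) y.1 y.2
    exact ⟨⟨z, hz⟩, hzy⟩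
  choose f hf using hR
  let y : ℕ → {y : G // Rt x y} := fun k =>
    Nat.rec ⟨x, 1, 1, one_pos, by simp⟩ (fun k z => f k z) k
  exact ⟨fun k => (y k).1, rfl, fun k => hf k (y k)⟩

theorem chain_pow {y : ℕ → G} (hy : ∀ k, (y (k + 1)) ^ (k + 1) = y k) (k l : ℕ) (hkl : k ≤ l) :
    (y l) ^ (l.factorial / k.factorial) = y k := by
  induction l, hkl using Nat.le_induction with
  | base => rw [Nat.div_self (Nat.factorial_pos k), pow_one]
  | succ l hkl ih =>
    rw [Nat.factorial_succ, Nat.mul_div_assoc _ (Nat.factorial_dvd_factorial hkl), pow_mul, hy, ih]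

/-- the integer `q * k!` for `q.den ≤ k` -/
def zz (q : ℚ) (k : ℕ) : ℤ := q.num * ((k.factorial / q.den : ℕ) : ℤ)

theorem zz_cast (q : ℚ) (k : ℕ) (hk : q.den ≤ k) : ((zz q k : ℤ) : ℚ) = q * k.factorial := by
  have h1 : q.den ∣ k.factorial := Nat.dvd_factorial q.den_pos hk
  have h2 : (q.den : ℚ) ≠ 0 := Nat.cast_ne_zero.2 q.den_nz
  unfold zz
  rw [Int.cast_mul, Int.cast_natCast, Nat.cast_div h1 h2]
  conv_rhs => rw [← Rat.num_div_den q]
  field_simp

theorem chain_zz {y : ℕ → G} (hy : ∀ k, (y (k + 1)) ^ (k + 1) = y k) (q : ℚ) (k l : ℕ)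
    (hk : q.den ≤ k) (hkl : k ≤ l) : (y l) ^ (zz q l) = (y k) ^ (zz q k) := by
  have h1 : zz q l = ((l.factorial / k.factorial : ℕ) : ℤ) * zz q k := by
    have h2 : ((zz q l : ℤ) : ℚ) = ((((l.factorial / k.factorial : ℕ) : ℤ) * zz q k : ℤ) : ℚ) := by
      rw [zz_cast q l (hk.trans hkl), Int.cast_mul, Int.cast_natCast,
        zz_cast q k hk, Nat.cast_div (Nat.factorial_dvd_factorial hkl)
        (Nat.cast_ne_zero.2 (Nat.factorial_ne_zero k))]
      have : (k.factorial : ℚ) ≠ 0 := Nat.cast_ne_zero.2 (Nat.factorial_ne_zero k)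
      field_simp
    exact_mod_cast h2
  rw [h1, zpow_mul, zpow_natCast, chain_pow hy k l hkl]

include hx h in
/-- a copy of the additive group of the rationals -/
theorem exists_rat : ∃ f : Multiplicative ℚ →* G, Function.Injective f := by
  obtain ⟨y, hy0, hy⟩ := exists_chain h
  let f : ℚ → G := fun q => (y q.den) ^ (zz q q.den)
  have hf : ∀ (q : ℚ) (k : ℕ), q.den ≤ k → f q = (y k) ^ (zz q k) := by
    intro q k hk
    exact (chain_zz hy q q.den k le_rfl hk).symm
  have hadd : ∀ p q : ℚ, f (p + q) = f p * f q := by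
    intro p q
    set k := p.den + q.den + (p + q).den with hk
    have h1 : p.den ≤ k := by omega
    have h2 : q.den ≤ k := by omega
    have h3 : (p + q).den ≤ k := by omega
    rw [hf p k h1, hf q k h2, hf (p + q) k h3, ← zpow_add]
    congr 1
    have h4 : ((zz (p + q) k : ℤ) : ℚ) = ((zz p k + zz q k : ℤ) : ℚ) := by
      push_cast
      rw [zz_cast _ k h1, zz_cast _ k h2, zz_cast _ k h3, add_mul]
    exact_mod_cast h4
  let F : Multiplicative ℚ →* G :=
    MonoidHom.mk' (fun q => f (Multiplicative.toAdd q)) fun p q => hadd _ _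
  refine ⟨F, ?_⟩
  rw [injective_iff_map_eq_one]
  intro q hq
  have hq' : f (Multiplicative.toAdd q) = 1 := hq
  set p : ℚ := Multiplicative.toAdd q with hp
  have hyinf : ¬ IsOfFinOrder (y p.den) := by
    intro hfin
    apply hx
    have h1 := chain_pow hy 0 p.den (Nat.zero_le _)
    rw [hy0] at h1
    rw [← h1]
    exact hfin.pow
  have hz : zz p p.den = 0 := by
    by_contra hne
    apply hyinf
    exact isOfFinOrder_iff_zpow_eq_one.2 ⟨zz p p.den, hne, hq'⟩
  have h2 := zz_cast p p.den le_rfl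
  rw [hz] at h2
  have h3 : (p.den.factorial : ℚ) ≠ 0 := Nat.cast_ne_zero.2 (Nat.factorial_ne_zero _)
  have h4 : p = 0 := by
    have h5 : p * (p.den.factorial : ℚ) = 0 := by rw [← h2]; simp
    exact (mul_eq_zero.1 h5).resolve_right h3
  exact h4

end Rational

end Pool.Agent.H398.Mon
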