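import Pool.Agent.R673.MG.Types

/-!
# Infinite finitely generated groups all of whose proper subgroups are cyclic
-/

set_option autoImplicit false

open Subgroup

namespace Pool.Agent.H398.Mon

universe u

section T3

variable {G : Type u} [Group G]

theorem coatomic_of_fg (h : Group.FG G) : IsCoatomic (Subgroup G) := by
  apply CompleteLattice.coatomic_of_top_compact
  rw [CompleteLattice.isCompactElement_iff_le_of_directed_sSup_le]
  intro s hne hdir hle
  obtain ⟨S, hS⟩ := h.out
  have h1 : (S : Set G) ⊆ ⋃ M ∈ s, ((M : Subgroup G) : Set G) := by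
    intro g _
    have h2 : g ∈ sSup s := hle (Subgroup.mem_top g)
    rw [Subgroup.mem_sSup_of_directedOn hne hdir] at h2
    obtain ⟨M, hM, hg⟩ := h2
    exact Set.mem_biUnion hM hg
  obtain ⟨M, hM, hSM⟩ := DirectedOn.exists_mem_subset_of_finset_subset_biUnion
    (f := fun M : Subgroup G => (M : Set G)) hne (fun a ha b hb => by
      obtain ⟨c, hc, h2, h3⟩ := hdir a ha b hb
      exact ⟨c, hc, h2, h3⟩) h1
  refine ⟨M, hM, ?_⟩
  rw [← hS, Subgroup.closure_le]
  exact hSM

/-- An element with finitely many conjugates is central if there are no proper subgroups of finite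
index. -/
theorem central_of_finite_conj (hno : ∀ H : Subgroup G, H.FiniteIndex → H = ⊤) (z : G)
    (hz : {y : G | ∃ g : G, g * z * g⁻¹ = y}.Finite) : z ∈ center G := by
  classical
  have hfin : Finite (G ⧸ centralizer ({z} : Set G)) := by
    have := hz.to_subtype
    refine Finite.of_injective (fun q : G ⧸ centralizer ({z} : Set G) =>
      (⟨q.out * z * q.out⁻¹, q.out, rfl⟩ : {y : G | ∃ g : G, g * z * g⁻¹ = y})) ?_
    intro q r h
    have h1 : q.out * z * q.out⁻¹ = r.out * z * r.out⁻¹ := congrArg Subtype.val h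
    rw [← QuotientGroup.out_eq' q, ← QuotientGroup.out_eq' r, QuotientGroup.eq,
      mem_centralizer_singleton_iff]
    have h2 : r.out⁻¹ * (q.out * z * q.out⁻¹) * r.out = z := by rw [h1]; group
    have h3 : (q.out⁻¹ * r.out) * z = z * (q.out⁻¹ * r.out) := by
      calc (q.out⁻¹ * r.out) * z
          = (q.out⁻¹ * r.out) * (r.out⁻¹ * (q.out * z * q.out⁻¹) * r.out) := by rw [h2]
        _ = z * (q.out⁻¹ * r.out) := by group
    exact h3
  have h1 := hno _ (finiteIndex_of_finite_quotient (H := centralizer ({z} : Set G)))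
  rw [mem_center_iff]
  intro g
  have : g ∈ centralizer ({z} : Set G) := by rw [h1]; trivial
  exact (mem_centralizer_singleton_iff.1 this)

theorem normal_le_center (h3 : ∀ H : Subgroup G, H ≠ ⊤ → IsCyclic H)
    (hno : ∀ H : Subgroup G, H.FiniteIndex → H = ⊤) (N : Subgroup G) [hN : N.Normal]
    (hNt : N ≠ ⊤) : N ≤ center G := by
  obtain ⟨⟨z, hzN⟩, hgen⟩ := h3 N hNt
  have hmemN : ∀ g : G, g ∈ N ↔ ∃ a : ℤ, z ^ a = g := by
    intro g
    constructor
    · intro hg
      obtain ⟨a, ha⟩ := hgen ⟨g, hg⟩
      exact ⟨a, by simpa using congrArg Subtype.val ha⟩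
    · rintro ⟨a, rfl⟩
      exact N.zpow_mem hzN a
  have hz : z ∈ center G := by
    apply central_of_finite_conj hno
    by_cases hf : IsOfFinOrder z
    · have h1 : (Subgroup.zpowers z : Set G).Finite := by
        rw [Subgroup.zpowers_eq_closure]
        have := hf.finite_zpowers
        rwa [Subgroup.zpowers_eq_closure] at this
      refine h1.subset ?_
      rintro y ⟨g, rfl⟩
      obtain ⟨a, ha⟩ := (hmemN _).1 (hN.conj_mem z hzN g)
      exact ⟨a, ha⟩
    · have h1 : ({z, z⁻¹} : Set G).Finite := by simp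
      refine h1.subset ?_
      rintro y ⟨g, rfl⟩
      obtain ⟨a, ha⟩ := (hmemN _).1 (hN.conj_mem z hzN g)
      obtain ⟨b, hb⟩ := (hmemN _).1 (hN.conj_mem z hzN g⁻¹)
      have h1 : z ^ (a * b) = z ^ (1 : ℤ) := by
        have e1 : g * (z ^ b) * g⁻¹ = z := by rw [hb]; group
        rw [← conj_zpow] at e1
        rw [← ha, ← zpow_mul] at e1
        rw [e1, zpow_one]
      have h2 : a * b = 1 := R673.MG.zpow_inj_of hf h1
      rcases Int.eq_one_or_neg_one_of_mul_eq_one h2 with h3 | h3
      · left
        rw [← ha, h3, zpow_one]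
      · right
        rw [← ha, h3, zpow_neg_one]
        rfl
  intro x hx
  obtain ⟨a, rfl⟩ := (hmemN x).1 hx
  exact (center G).zpow_mem hz a

theorem not_comm [Infinite G] (hfg : Group.FG G)
    (hno : ∀ H : Subgroup G, H.FiniteIndex → H = ⊤) (hcomm : ∀ x y : G, x * y = y * x) :
    False := by
  classical
  have := coatomic_of_fg hfg
  rcases eq_top_or_exists_le_coatom (⊥ : Subgroup G) with h | ⟨M, hM, -⟩
  · exact bot_ne_top h
  · have hMn : M.Normal := ⟨fun n hn g => by rw [hcomm g n, mul_assoc, mul_inv_cancel, mul_one]; exact hn⟩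
    let _ : CommGroup (G ⧸ M) :=
      { (inferInstance : Group (G ⧸ M)) with
        mul_comm := by
          intro a b
          obtain ⟨x, rfl⟩ := QuotientGroup.mk'_surjective M a
          obtain ⟨y, rfl⟩ := QuotientGroup.mk'_surjective M b
          rw [← map_mul, ← map_mul, hcomm] }
    have hs : IsSimpleGroup (G ⧸ M) := by
      have hnt : Nontrivial (G ⧸ M) := by
        by_contra h
        rw [not_nontrivial_iff_subsingleton, QuotientGroup.subsingleton_iff] at h
        exact hM.1 h
      refine { exists_pair_ne := hnt.exists_pair_ne, eq_bot_or_eq_top_of_normal := ?_ }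
      intro H _
      have hle : M ≤ H.comap (QuotientGroup.mk' M) := by
        intro x hx
        show QuotientGroup.mk' M x ∈ H
        have : QuotientGroup.mk' M x = 1 := (QuotientGroup.eq_one_iff x).2 hx
        rw [this]
        exact H.one_mem
      rcases hle.eq_or_lt with h | h
      · left
        rw [eq_bot_iff]
        intro q hq
        obtain ⟨g, rfl⟩ := QuotientGroup.mk'_surjective M q
        have h2 : g ∈ M := by rw [h]; exact hq
        rw [Subgroup.mem_bot]
        exact (QuotientGroup.eq_one_iff g).2 h2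
      · right
        have h1 := hM.2 _ h
        rw [eq_top_iff]
        intro q _
        obtain ⟨g, rfl⟩ := QuotientGroup.mk'_surjective M q
        have : g ∈ H.comap (QuotientGroup.mk' M) := by rw [h1]; trivial
        exact this
    have hfin : Finite (G ⧸ M) := IsSimpleGroup.finite
    exact hM.1 (hno M finiteIndex_of_finite_quotient)

/-- The structure of the infinite finitely generated noncyclic groups all of whose proper subgroups
are cyclic. -/
theorem simple_quotient [Infinite G] (hfg : Group.FG G) (hnc : ¬ IsCyclic G)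
    (h3 : ∀ H : Subgroup G, H ≠ ⊤ → IsCyclic H) :
    IsSimpleGroup (G ⧸ center G) ∧ Infinite (G ⧸ center G) ∧ center G ≠ ⊤ := by
  have hno : ∀ H : Subgroup G, H.FiniteIndex → H = ⊤ := R673.MG.cyclic_no_fi hnc h3
  have hZ : center G ≠ ⊤ := by
    intro h
    apply not_comm hfg hno
    intro x y
    have : y ∈ center G := by rw [h]; trivial
    exact mem_center_iff.1 this x
  refine ⟨?_, ?_, hZ⟩
  · have hnt : Nontrivial (G ⧸ center G) := by
      by_contra h
      rw [not_nontrivial_iff_subsingleton, QuotientGroup.subsingleton_iff] at h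
      exact hZ h
    refine { exists_pair_ne := hnt.exists_pair_ne, eq_bot_or_eq_top_of_normal := ?_ }
    intro H hH
    by_cases h : H.comap (QuotientGroup.mk' (center G)) = ⊤
    · right
      rw [eq_top_iff]
      intro q _
      obtain ⟨g, rfl⟩ := QuotientGroup.mk'_surjective (center G) q
      have : g ∈ H.comap (QuotientGroup.mk' (center G)) := by rw [h]; trivial
      exact this
    · left
      have h1 := normal_le_center h3 hno _ h
      rw [eq_bot_iff]
      intro q hq
      obtain ⟨g, rfl⟩ := QuotientGroup.mk'_surjective (center G) q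
      have h2 : g ∈ center G := h1 (show g ∈ H.comap (QuotientGroup.mk' (center G)) from hq)
      rw [Subgroup.mem_bot]
      exact (QuotientGroup.eq_one_iff g).2 h2
  · by_contra h
    rw [not_infinite_iff_finite] at h
    exact hZ (hno _ finiteIndex_of_finite_quotient)

theorem cyclic_quotient (h3 : ∀ H : Subgroup G, H ≠ ⊤ → IsCyclic H) (N : Subgroup G) [N.Normal]
    (H : Subgroup (G ⧸ N)) (hH : H ≠ ⊤) : IsCyclic H := by
  have h1 : H.comap (QuotientGroup.mk' N) ≠ ⊤ := by
    intro h
    apply hH
    rw [eq_top_iff]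
    intro q _
    obtain ⟨g, rfl⟩ := QuotientGroup.mk'_surjective N q
    have : g ∈ H.comap (QuotientGroup.mk' N) := by rw [h]; trivial
    exact this
  have h2 := h3 _ h1
  let f : H.comap (QuotientGroup.mk' N) →* H :=
    (QuotientGroup.mk' N).subgroupComap H
  refine isCyclic_of_surjective f ?_
  rintro ⟨q, hq⟩
  obtain ⟨g, rfl⟩ := QuotientGroup.mk'_surjective N q
  exact ⟨⟨g, hq⟩, rfl⟩

theorem noncomm_simple [Infinite G] [hs : IsSimpleGroup G] : center G = ⊥ ∧ ¬ IsCyclic G := by
  have key : ¬ ∀ x y : G, x * y = y * x := by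
    intro h
    let _ : CommGroup G := { (inferInstance : Group G) with mul_comm := h }
    have : Finite G := IsSimpleGroup.finite
    exact not_finite G
  constructor
  · rcases hs.eq_bot_or_eq_top_of_normal (center G) inferInstance with h | h
    · exact h
    · exfalso
      apply key
      intro x y
      have : y ∈ center G := by rw [h]; trivial
      exact mem_center_iff.1 this x
  · rintro ⟨c, hc⟩
    apply key
    intro x y
    obtain ⟨a, rfl⟩ := hc x
    obtain ⟨b, rfl⟩ := hc y
    exact (Commute.refl c).zpow_zpow a b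

/-- In an infinite simple group with cyclic proper subgroups the centralizer of a nontrivial
element is the only maximal subgroup containing it, and it is malnormal. -/
theorem maximal_structure [Infinite G] [hs : IsSimpleGroup G] (hfg : Group.FG G)
    (h3 : ∀ H : Subgroup G, H ≠ ⊤ → IsCyclic H) (x : G) (hx : x ≠ 1) :
    IsCoatom (centralizer ({x} : Set G)) ∧
      (∀ M : Subgroup G, M ≠ ⊤ → x ∈ M → M ≤ centralizer ({x} : Set G)) ∧
      (∀ g : G, g ∉ centralizer ({x} : Set G) → ∀ y ∈ centralizer ({x} : Set G),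
        g * y * g⁻¹ ∈ centralizer ({x} : Set G) → y = 1) := by
  obtain ⟨hZ, -⟩ := noncomm_simple (G := G)
  have hCt : ∀ y : G, y ≠ 1 → centralizer ({y} : Set G) ≠ ⊤ := by
    intro y hy h
    apply hy
    rw [← Subgroup.mem_bot, ← hZ, mem_center_iff]
    intro g
    have : g ∈ centralizer ({y} : Set G) := by rw [h]; trivial
    exact (mem_centralizer_singleton_iff.1 this)
  have hle : ∀ y : G, ∀ M : Subgroup G, M ≠ ⊤ → y ∈ M → M ≤ centralizer ({y} : Set G) := by
    intro y M hM hyM g hg
    have := h3 M hM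
    rw [mem_centralizer_singleton_iff]
    obtain ⟨⟨c, hcM⟩, hc⟩ := this
    obtain ⟨a, ha⟩ := hc ⟨y, hyM⟩
    obtain ⟨b, hb⟩ := hc ⟨g, hg⟩
    have ha' : c ^ a = y := by simpa using congrArg Subtype.val ha
    have hb' : c ^ b = g := by simpa using congrArg Subtype.val hb
    rw [← ha', ← hb']
    exact (Commute.refl c).zpow_zpow b a
  have hmem : ∀ y : G, y ∈ centralizer ({y} : Set G) := fun y =>
    mem_centralizer_singleton_iff.2 rfl
  have hcoat : ∀ y : G, y ≠ 1 → IsCoatom (centralizer ({y} : Set G)) := by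
    intro y hy
    refine ⟨hCt y hy, ?_⟩
    intro M hM
    by_contra hMt
    exact absurd (hle y M hMt (hM.le (hmem y))) (not_le_of_gt hM)
  have heq : ∀ y : G, y ≠ 1 → ∀ z : G, z ≠ 1 → y ∈ centralizer ({z} : Set G) →
      centralizer ({y} : Set G) = centralizer ({z} : Set G) := by
    intro y hy z hz hyz
    have h1 := hle y _ (hCt z hz) hyz
    rcases h1.eq_or_lt with h | h
    · exact h.symm
    · exact absurd ((hcoat z hz).2 _ h) (hCt y hy)
  refine ⟨hcoat x hx, hle x, ?_⟩
  intro g hg y hy hyg
  by_contra hy1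
  -- the centralizer of y is the one of x, and it is normalized by g
  have h1 := heq y hy1 x hx hy
  have hgy1 : g * y * g⁻¹ ≠ 1 := by
    intro h
    apply hy1
    rw [← conj_eq_one_iff (a := g) (b := y)]
    exact h
  have h2 := heq _ hgy1 x hx hyg
  have hnorm : ∀ c : G, c ∈ centralizer ({x} : Set G) ↔ g * c * g⁻¹ ∈ centralizer ({x} : Set G) := by
    intro c
    have e1 : c ∈ centralizer ({x} : Set G) ↔ c * y = y * c := by
      rw [← h1, mem_centralizer_singleton_iff]
    have e2 : g * c * g⁻¹ ∈ centralizer ({x} : Set G) ↔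
        g * c * g⁻¹ * (g * y * g⁻¹) = g * y * g⁻¹ * (g * c * g⁻¹) := by
      rw [← h2, mem_centralizer_singleton_iff]
    rw [e1, e2]
    constructor
    · intro h
      calc g * c * g⁻¹ * (g * y * g⁻¹) = g * (c * y) * g⁻¹ := by group
        _ = g * (y * c) * g⁻¹ := by rw [h]
        _ = g * y * g⁻¹ * (g * c * g⁻¹) := by group
    · intro h
      have h5 : g * (c * y) * g⁻¹ = g * (y * c) * g⁻¹ := by
        calc g * (c * y) * g⁻¹ = g * c * g⁻¹ * (g * y * g⁻¹) := by group
          _ = g * y * g⁻¹ * (g * c * g⁻¹) := h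
          _ = g * (y * c) * g⁻¹ := by group
      exact mul_left_cancel (mul_right_cancel h5)
  have hgN : g ∈ normalizer (centralizer ({x} : Set G)) := by
    rw [mem_normalizer_iff]
    exact hnorm
  have hlt : centralizer ({x} : Set G) < normalizer (centralizer ({x} : Set G)) :=
    lt_of_le_of_ne le_normalizer (fun e => hg (e ▸ hgN))
  have htop := (hcoat x hx).2 _ hlt
  have hn : (centralizer ({x} : Set G)).Normal := normalizer_eq_top_iff.1 htop
  rcases hs.eq_bot_or_eq_top_of_normal _ hn with h | h
  · apply hx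
    rw [← Subgroup.mem_bot, ← h]
    exact hmem x
  · exact hCt x hx h

/-- If the centre is infinite, the group is torsion-free and its central quotient is a torsion
group. -/
theorem infinite_center (hfg : Group.FG G) [Infinite G] (hnc : ¬ IsCyclic G)
    (h3 : ∀ H : Subgroup G, H ≠ ⊤ → IsCyclic H) (hZ : Infinite (center G)) :
    (∀ g : G, g ≠ 1 → ¬ IsOfFinOrder g) ∧ ∀ q : G ⧸ center G, IsOfFinOrder q := by
  obtain ⟨-, -, hZt⟩ := simple_quotient hfg hnc h3
  -- a generator of the centre
  obtain ⟨⟨z, hzZ⟩, hgen⟩ := h3 _ hZt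
  have hz : ¬ IsOfFinOrder z := by
    intro hf
    have h1 : (Subgroup.zpowers z : Set G).Finite := by
      rw [Subgroup.zpowers_eq_closure]
      have := hf.finite_zpowers
      rwa [Subgroup.zpowers_eq_closure] at this
    have h2 : (center G : Set G).Finite := by
      refine h1.subset ?_
      intro g hg
      obtain ⟨a, ha⟩ := hgen ⟨g, hg⟩
      exact ⟨a, by simpa using congrArg Subtype.val ha⟩
    exact hZ.not_finite h2
  -- every element and z generate a cyclic subgroup
  have key : ∀ g : G, ∃ c : G, ∃ a b : ℤ, c ^ a = g ∧ c ^ b = z := by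
    intro g
    have hK : zpowers g ⊔ center G ≠ ⊤ := by
      intro h
      apply not_comm hfg (R673.MG.cyclic_no_fi hnc h3)
      have hx : ∀ x : G, ∃ a : ℤ, ∃ w ∈ center G, g ^ a * w = x := by
        intro x
        have : x ∈ zpowers g ⊔ center G := by rw [h]; trivial
        rw [Subgroup.mem_sup_of_normal_right] at this
        obtain ⟨_, ⟨a, rfl⟩, w, hw, hxw⟩ := this
        exact ⟨a, w, hw, hxw⟩
      intro x y
      obtain ⟨a, w, hw, rfl⟩ := hx x
      obtain ⟨b, v, hv, rfl⟩ := hx y
      have hw' := mem_center_iff.1 hw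
      have hv' := mem_center_iff.1 hv
      have hab : g ^ a * g ^ b = g ^ b * g ^ a := ((Commute.refl g).zpow_zpow a b).eq
      calc g ^ a * w * (g ^ b * v) = g ^ a * (w * g ^ b) * v := by group
        _ = g ^ a * (g ^ b * w) * v := by rw [hw' (g ^ b)]
        _ = (g ^ a * g ^ b) * (w * v) := by group
        _ = (g ^ b * g ^ a) * (v * w) := by rw [hab, hv' w]
        _ = g ^ b * (g ^ a * v) * w := by group
        _ = g ^ b * (v * g ^ a) * w := by rw [hv' (g ^ a)]
        _ = g ^ b * v * (g ^ a * w) := by group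
    obtain ⟨⟨c, hcK⟩, hc⟩ := h3 _ hK
    obtain ⟨a, ha⟩ := hc ⟨g, (le_sup_left : zpowers g ≤ zpowers g ⊔ center G) (mem_zpowers g)⟩
    obtain ⟨b, hb⟩ := hc ⟨z, (le_sup_right : center G ≤ zpowers g ⊔ center G) hzZ⟩
    exact ⟨c, a, b, by simpa using congrArg Subtype.val ha, by simpa using congrArg Subtype.val hb⟩
  constructor
  · intro g hg hgf
    obtain ⟨c, a, b, ha, hb⟩ := key g
    have hcf : ¬ IsOfFinOrder c := by
      intro h
      apply hz
      rw [← hb]
      exact h.zpow
    have ha0 : a ≠ 0 := by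
      rintro rfl
      apply hg
      rw [← ha, zpow_zero]
    obtain ⟨n, hn, hn1⟩ := isOfFinOrder_iff_pow_eq_one.1 hgf
    rw [← ha, ← zpow_natCast, ← zpow_mul] at hn1
    have := R673.MG.zpow_inj_of hcf (hn1.trans (zpow_zero c).symm)
    rcases mul_eq_zero.1 this with h | h
    · exact ha0 h
    · omega
  · intro q
    obtain ⟨g, rfl⟩ := QuotientGroup.mk'_surjective (center G) q
    obtain ⟨c, a, b, ha, hb⟩ := key g
    have hb0 : b ≠ 0 := by
      rintro rfl
      apply hz
      rw [← hb, zpow_zero]
      exact IsOfFinOrder.one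
    have h1 : g ^ b = z ^ a := by
      rw [← ha, ← hb, ← zpow_mul, ← zpow_mul, mul_comm]
    have h2 : (QuotientGroup.mk' (center G) g) ^ b = 1 := by
      rw [← map_zpow, h1]
      exact (QuotientGroup.eq_one_iff _).2 ((center G).zpow_mem hzZ a)
    rw [isOfFinOrder_iff_zpow_eq_one]
    exact ⟨b, hb0, h2⟩

end T3

end Pool.Agent.H398.Mon
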