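import Pool.Agent.H398.Mon.TypeThree
import Pool.Agent.H398.Mon.Rat

/-!
# Groups with cyclic proper subgroups: completeness and finitely many conjugacy classes
-/

set_option autoImplicit false

open Subgroup

namespace Pool.Agent.H398.Mon

universe u

section T3

variable {G : Type u} [Group G]

/-- A simple infinite group with cyclic proper subgroups is not complete. -/
theorem not_complete_simple [Infinite G] [hs : IsSimpleGroup G] (hfg : Group.FG G)
    (h3 : ∀ H : Subgroup G, H ≠ ⊤ → IsCyclic H)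
    (h5 : ∀ g : G, ∀ m : ℕ, 1 ≤ m → ∃ h : G, h ^ m = g) : False := by
  obtain ⟨x, hx⟩ := exists_ne (1 : G)
  obtain ⟨hco, hmax, -⟩ := maximal_structure hfg h3 x hx
  obtain ⟨⟨c, hcC⟩, hgen⟩ := h3 _ hco.1
  have hmem : ∀ g : G, g ∈ centralizer ({x} : Set G) → ∃ a : ℤ, c ^ a = g := by
    intro g hg
    obtain ⟨a, ha⟩ := hgen ⟨g, hg⟩
    exact ⟨a, by simpa using congrArg Subtype.val ha⟩
  have hxC : x ∈ centralizer ({x} : Set G) := mem_centralizer_singleton_iff.2 rfl
  have hc1 : c ≠ 1 := by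
    rintro rfl
    obtain ⟨a, ha⟩ := hmem x hxC
    exact hx (by rw [← ha, one_zpow])
  -- a root of c centralizes c and hence x
  have hroot : ∀ m : ℕ, 1 ≤ m → ∃ a : ℤ, c ^ (a * m) = c := by
    intro m hm
    obtain ⟨y, hy⟩ := h5 c m hm
    obtain ⟨hcc, hcmax, -⟩ := maximal_structure hfg h3 c hc1
    have h1 : centralizer ({x} : Set G) ≤ centralizer ({c} : Set G) := hcmax _ hco.1 hcC
    have h2 : centralizer ({x} : Set G) = centralizer ({c} : Set G) := by
      rcases h1.eq_or_lt with h | h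
      · exact h
      · exact absurd (hco.2 _ h) hcc.1
    have hyC : y ∈ centralizer ({x} : Set G) := by
      rw [h2, mem_centralizer_singleton_iff, ← hy, ← pow_succ', ← pow_succ]
    obtain ⟨a, ha⟩ := hmem y hyC
    refine ⟨a, ?_⟩
    rw [zpow_mul, ha, zpow_natCast, hy]
  by_cases hf : IsOfFinOrder c
  · obtain ⟨a, ha⟩ := hroot (orderOf c) hf.orderOf_pos
    apply hc1
    rw [← ha, mul_comm, zpow_mul, zpow_natCast, pow_orderOf_eq_one, one_zpow]
  · obtain ⟨a, ha⟩ := hroot 2 (by norm_num)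
    have h1 : c ^ (a * ((2 : ℕ) : ℤ)) = c ^ (1 : ℤ) := by rw [ha, zpow_one]
    have := R673.MG.zpow_inj_of hf h1
    omega

theorem not_complete [Infinite G] (hfg : Group.FG G) (hnc : ¬ IsCyclic G)
    (h3 : ∀ H : Subgroup G, H ≠ ⊤ → IsCyclic H)
    (h5 : ∀ g : G, ∀ m : ℕ, 1 ≤ m → ∃ h : G, h ^ m = g) : False := by
  obtain ⟨hs, hinf, -⟩ := simple_quotient hfg hnc h3
  have hfgS : Group.FG (G ⧸ center G) := by
    have : Group.FG G := hfg
    infer_instance
  refine not_complete_simple (G := G ⧸ center G) hfgS (fun H hH => cyclic_quotient h3 _ H hH) ?_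
  intro q m hm
  obtain ⟨g, rfl⟩ := QuotientGroup.mk'_surjective (center G) q
  obtain ⟨h, hh⟩ := h5 g m hm
  exact ⟨QuotientGroup.mk' (center G) h, by rw [← map_pow, hh]⟩

/-- Finitely many conjugacy classes and cyclic proper subgroups: finite exponent. -/
theorem exponent_of_three_six [Infinite G] (hfg : Group.FG G) (hnc : ¬ IsCyclic G)
    (h3 : ∀ H : Subgroup G, H ≠ ⊤ → IsCyclic H) [hc : Finite (ConjClasses G)] :
    ∃ n : ℕ, 0 < n ∧ ∀ g : G, g ^ n = 1 := by
  by_cases h : ∀ g : G, IsOfFinOrder g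
  · exact exponent_of_torsion h
  · exfalso
    obtain ⟨x, hx, hrec⟩ := exists_recurrent h
    obtain ⟨f, hf⟩ := exists_rat hx hrec
    have hrange : f.range ≠ ⊤ := by
      intro ht
      apply not_comm hfg (R673.MG.cyclic_no_fi hnc h3)
      intro a b
      obtain ⟨p, rfl⟩ : a ∈ f.range := by rw [ht]; trivial
      obtain ⟨q, rfl⟩ : b ∈ f.range := by rw [ht]; trivial
      rw [← map_mul, mul_comm, map_mul]
    obtain ⟨⟨c, hcR⟩, hgen⟩ := h3 _ hrange
    obtain ⟨q, hq⟩ := hcR
    have hmem : ∀ r : ℚ, ∃ a : ℤ, a * Multiplicative.toAdd q = r := by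
      intro r
      obtain ⟨a, ha⟩ := hgen ⟨f (Multiplicative.ofAdd r), _, rfl⟩
      have ha' : c ^ a = f (Multiplicative.ofAdd r) := by simpa using congrArg Subtype.val ha
      rw [← hq, ← map_zpow] at ha'
      have h1 := hf ha'
      refine ⟨a, ?_⟩
      have h2 := congrArg Multiplicative.toAdd h1
      rw [toAdd_zpow] at h2
      simpa using h2
    obtain ⟨a, ha⟩ := hmem 1
    have hq0 : Multiplicative.toAdd q ≠ 0 := by
      intro h0
      rw [h0] at ha
      norm_num at ha
    obtain ⟨b, hb⟩ := hmem (Multiplicative.toAdd q / 2)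
    have h1 : ((b : ℚ) * 2 - 1) * Multiplicative.toAdd q = 0 := by linarith
    rcases mul_eq_zero.1 h1 with h2 | h2
    · have h3' : ((b * 2 - 1 : ℤ) : ℚ) = 0 := by push_cast; exact h2
      have h4 : b * 2 - 1 = 0 := by exact_mod_cast h3'
      omega
    · exact hq0 h2

end T3

end Pool.Agent.H398.Mon
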